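import Pool.Agent.Lib_helper44.CP.Main

/-!
# Long circles of integers `a, b, ...` with all `2ab - 1` prime

Q1 asks for a circular arrangement of ALL integers `1, ..., n` such that `2ab - 1` is prime for all
pairs of neighbours `a`, `b`. Here: for every large `n` there is such an arrangement of at least
`n / (log n) ^ 28` different integers of `{1, ..., n}`.

The proof. Let `R = √N / (log N) ^ 12`. For primes `a` in `(R, 2R]` all non-principal characters
modulo `a` are primitive, so the large sieve and Vaughan's identity give, for EVERY large `N` (there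
are no small conductors, hence no exceptional zeros), that the primes `p ≤ N` with `p ≡ -1` modulo `a`
are as many as expected on average over `a`. For such `p` we have `p = 2ab - 1` with
`b ≤ √N (log N) ^ 12`. So for `n = 2 √N (log N) ^ 12` the graph on `{1, ..., n}` with the edges
`{a, b}`, `2ab - 1` prime, has at least `N / (64 (log N) ^ 2)` edges. It contains a subgraph of
minimal degree at least `k = N / (64 n (log N) ^ 2)`, and from a longest path in it one gets a cycle
with more than `k` vertices.
-/

set_option autoImplicit false

namespace Pool.Agent.Results.MP_f24fec_nt.LongCircles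

/-- For all `n ≥ n₀` there are `m ≥ n / (log n) ^ 28` different integers `π 0, ..., π (m - 1)` in
`{1, ..., n}` such that `2 * π i * π (i + 1) - 1` is prime for all `i < m`, where `i + 1` is read
modulo `m`. -/
theorem result : ∃ n₀ : ℕ, ∀ n : ℕ, n₀ ≤ n →
    ∃ m : ℕ, (n : ℝ) / Real.log n ^ 28 ≤ m ∧
      ∃ π : ℕ → ℕ, Set.InjOn π (Set.Iio m) ∧ (∀ i < m, 1 ≤ π i ∧ π i ≤ n) ∧
        ∀ i < m, (2 * π i * π ((i + 1) % m) - 1).Prime :=
  Filter.eventually_atTop.1 Pool.Agent.Lib_helper44.CP.long

end Pool.Agent.Results.MP_f24fec_nt.LongCircles
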